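import Pool.Agent.Helper10.SP.GoalsT
import Pool.Agent.Helper95.Lin.Basics
import Pool.Agent.Helper63.SP.LA
import Pool.Agent.Helper36.Abund.Area

/-! # Local bound for the Levi matrix by the global integral (SP packet LML2) -/

open Complex Metric Set Filter Topology MeasureTheory
open scoped ContDiff ComplexConjugate ComplexOrder Manifold MatrixOrder Matrix

namespace Pool.Agent.Helper75.SP

open Pool.Agent.Helper10.SP Pool.Agent.Helper95.Lin Pool.Agent.Helper16.Abund
  Pool.Agent.Helper92.Orb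

universe u

section linalg

variable {n : ℕ}

/-- The rank one matrix of `e`. -/
private def EM (e : Fin n → ℂ) : Matrix (Fin n) (Fin n) ℂ := Matrix.of fun j i => conj (e j) * e i

private theorem trace_EM (L : Matrix (Fin n) (Fin n) ℂ) (e : Fin n → ℂ) :
    Matrix.trace (L * EM e) = hermi L e e := by
  simp only [Matrix.trace, Matrix.diag, Matrix.mul_apply, EM, Matrix.of_apply, hermi]
  refine Finset.sum_congr rfl fun i _ => Finset.sum_congr rfl fun j _ => ?_
  ring

private theorem EM_mul (L : Matrix (Fin n) (Fin n) ℂ) (e : Fin n → ℂ) :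
    EM e * L * EM e = hermi L e e • EM e := by
  ext a b
  simp only [Matrix.mul_apply, EM, Matrix.of_apply, Matrix.smul_apply, hermi, smul_eq_mul]
  rw [Finset.sum_mul]
  simp only [Finset.sum_mul]
  rw [Finset.sum_comm]
  refine Finset.sum_congr rfl fun i _ => Finset.sum_congr rfl fun j _ => ?_
  ring

private theorem EM_herm (e : Fin n → ℂ) : Matrix.conjTranspose (EM e) = EM e := by
  ext a b
  simp [EM, Matrix.conjTranspose_apply, mul_comm]

/-- Cauchy-Schwarz for the Hermitian form of `L`. -/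
theorem hermi_le {H L : Matrix (Fin n) (Fin n) ℂ} (hK : H⁻¹.PosDef) (hHK : H * H⁻¹ = 1)
    (hL : L.IsHermitian) (e : Fin n → ℂ) :
    0 ≤ (Matrix.trace (H⁻¹ * L * (H⁻¹ * L))).re ∧
    ‖hermi L e e‖ ^ 2 ≤ (Matrix.trace (H⁻¹ * L * (H⁻¹ * L))).re * ‖hermi H e e‖ ^ 2 := by
  obtain ⟨B, hB⟩ := CStarAlgebra.nonneg_iff_eq_star_mul_self.mp hK.posSemidef.nonneg
  rw [Matrix.star_eq_conjTranspose] at hB
  have hdet : IsUnit B.det := by
    rw [isUnit_iff_ne_zero]
    intro h0
    have h1 := hK.det_pos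
    rw [hB, Matrix.det_mul, h0, mul_zero] at h1
    exact lt_irrefl _ h1
  set C := B⁻¹ with hC
  have h1 : C * B = 1 := Matrix.nonsing_inv_mul B hdet
  have h2 : B * C = 1 := Matrix.mul_nonsing_inv B hdet
  have h1' : Bᴴ * Cᴴ = 1 := by rw [← Matrix.conjTranspose_mul, h1, Matrix.conjTranspose_one]
  have h2' : Cᴴ * Bᴴ = 1 := by rw [← Matrix.conjTranspose_mul, h2, Matrix.conjTranspose_one]
  have hH : H = C * Cᴴ := by
    calc H = H * (H⁻¹ * (C * Cᴴ)) := by
          rw [hB, ← Matrix.mul_assoc (Bᴴ * B), Matrix.mul_assoc Bᴴ B C, h2, Matrix.mul_one, h1',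
            Matrix.mul_one]
      _ = C * Cᴴ := by rw [← Matrix.mul_assoc, hHK, Matrix.one_mul]
  set N := B * L * Bᴴ with hN
  have hNh : Nᴴ = N := by
    rw [hN, Matrix.conjTranspose_mul, Matrix.conjTranspose_mul, Matrix.conjTranspose_conjTranspose,
      hL.eq, Matrix.mul_assoc]
  have hLN : L = C * N * Cᴴ := by
    calc L = (C * B) * L * (Bᴴ * Cᴴ) := by rw [h1, h1', Matrix.one_mul, Matrix.mul_one]
      _ = C * N * Cᴴ := by rw [hN]; simp only [Matrix.mul_assoc]
  have htr : Matrix.trace (H⁻¹ * L * (H⁻¹ * L)) = Matrix.trace (N * Nᴴ) := by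
    rw [hNh, hB, hN]
    have : Bᴴ * B * L * (Bᴴ * B * L) = Bᴴ * (B * L * Bᴴ * B * L) := by
      simp only [Matrix.mul_assoc]
    rw [this, Matrix.trace_mul_comm]
    simp only [Matrix.mul_assoc]
  set W := Cᴴ * EM e * C with hW
  have hWh : Wᴴ = W := by
    rw [hW, Matrix.conjTranspose_mul, Matrix.conjTranspose_mul, Matrix.conjTranspose_conjTranspose,
      EM_herm, Matrix.mul_assoc]
  have hLe : hermi L e e = Matrix.trace (N * Wᴴ) := by
    rw [← trace_EM, hWh]
    conv_lhs => rw [hLN]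
    rw [hW, Matrix.mul_assoc (C * N), Matrix.mul_assoc C N, Matrix.trace_mul_comm]
    simp only [Matrix.mul_assoc]
  have hWW : Matrix.trace (W * Wᴴ) = hermi H e e ^ 2 := by
    rw [hWh, hW]
    have : Cᴴ * EM e * C * (Cᴴ * EM e * C) = Cᴴ * (EM e * (C * Cᴴ) * EM e * C) := by
      simp only [Matrix.mul_assoc]
    rw [this, ← hH, EM_mul, Matrix.trace_mul_comm, Matrix.mul_assoc, ← hH, Matrix.smul_mul,
      Matrix.trace_smul, Matrix.trace_mul_comm, trace_EM, smul_eq_mul, sq]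
  have hN2 := Pool.Agent.Helper63.SP.trace_re_im N
  have hW2 := Pool.Agent.Helper63.SP.trace_re_im W
  rw [htr, hN2, Complex.ofReal_re]
  refine ⟨by positivity, ?_⟩
  rw [hLe]
  refine (Pool.Agent.Helper63.SP.cs N W).trans (le_of_eq ?_)
  congr 1
  rw [hWW] at hW2
  have h4 : ‖hermi H e e ^ 2‖ = ‖((∑ a, ∑ b, ‖W a b‖ ^ 2 : ℝ) : ℂ)‖ := by rw [hW2]
  rw [norm_pow, Complex.norm_real, Real.norm_eq_abs, abs_of_nonneg (by positivity)] at h4
  exact h4.symm

end linalg

section cover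

variable {n : ℕ} {T : Set (Cn n)} {G : Type u} [Group G] {R : G → Cn n → Cn n → Prop}

omit [Group G] in
/-- Some arrow from `x` ends in a point with `κ > 0`. -/
theorem exists_arrow_pos {κ : Cn n → ℝ} (hκ : IsPUE T R κ) {x : Cn n} (hx : x ∈ T) :
    ∃ γ y, R γ x y ∧ 0 < κ y := by
  by_contra hc
  push Not at hc
  have h1 := hκ.sum x hx
  have h2 : AS R x (fun _ y => κ y) = 0 := by
    unfold AS
    exact (finsum_mem_congr (s := {p : G × Cn n | R p.1 x p.2}) (g := fun _ => (0 : ℝ)) rfl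
      fun p hp => le_antisymm (hc p.1 p.2 hp) (hκ.nonneg p.2)).trans (finsum_mem_zero _)
  rw [h2] at h1
  norm_num at h1

/-- A continuous function on `T` times a test function is integrable. -/
theorem integrable_test {κ : Cn n → ℝ} (hκ : TestF T κ) {q : Cn n → ℝ}
    (hq : ContinuousOn q T) : Integrable (fun x => κ x * q x) := by
  have hs : Function.support (fun x => κ x * q x) ⊆ tsupport κ := by
    intro x hx
    refine subset_tsupport κ ?_
    intro h0
    exact hx (by simp [h0])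
  rw [← integrableOn_iff_integrable_of_support_subset hs]
  exact (hκ.1.continuous.continuousOn.mul (hq.mono hκ.2.2)).integrableOn_compact hκ.2.1

/-- The local statement. -/
theorem inv_bound_local (hARRB : S_ARRB.{u}) (hDETI : S_DETI.{u})
    {H : Cn n → Matrix (Fin n) (Fin n) ℂ} (hK : KEt T R H) {κ : Cn n → ℝ} (hκ : IsPUE T R κ)
    {C : Set (Cn n)} (hC : C ⊆ T) (hCc : IsCompact C) {x₀ : Cn n} (hx₀ : x₀ ∈ T) :
    ∃ (U : Set (Cn n)) (b : ℝ), IsOpen U ∧ x₀ ∈ U ∧ 0 ≤ b ∧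
      ∀ q : Cn n → ℝ, ContinuousOn q T → (∀ x ∈ T, 0 ≤ q x) →
      (∀ U τ, Arr R U τ → ∀ x ∈ U, q (τ x) = q x) →
      ∫ x in C ∩ U, q x ≤ b * ∫ x in T, κ x * (H x).det.re * q x := by
  have hTo := hK.et.isOpen
  obtain ⟨hA1, -, -, -, -⟩ := hARRB T R hK.et
  obtain ⟨hD1, hD2, -, -, hD5, -⟩ := hDETI T R H hK
  obtain ⟨γ, y₀, hR, hκy⟩ := exists_arrow_pos hκ hx₀
  obtain ⟨U₀, τ, σ, hxU, hUT, hL, hτ, hinj, -, -⟩ := hA1 γ x₀ y₀ hR
  have harr : Arr R U₀ τ := ⟨hL.1, hL.2.1, γ, hL.2.2⟩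
  have hτT : MapsTo τ U₀ T := fun x hx => (hK.et.mem _ _ _ (hL.2.2 x hx)).2
  set φ : Cn n → ℝ := fun x => κ (τ x) * (H x).det.re with hφ
  have hφc : ContinuousOn φ U₀ :=
    (hκ.test.1.continuous.comp_continuousOn hL.2.1.continuousOn).mul (hD2.continuousOn.mono hUT)
  have hφ0 : 0 < φ x₀ := by
    simp only [hφ, hτ]
    exact mul_pos hκy (hD1 x₀ hx₀).2.1
  have hev : ∀ᶠ x in 𝓝 x₀, φ x₀ / 2 < φ x :=
    (hφc.continuousAt (hL.1.mem_nhds hxU)).eventually (lt_mem_nhds (by linarith))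
  obtain ⟨V, hV, hVo, hxV⟩ := _root_.mem_nhds_iff.mp hev
  refine ⟨U₀ ∩ V, (φ x₀ / 2)⁻¹, hL.1.inter hVo, ⟨hxU, hxV⟩, by positivity, ?_⟩
  intro q hq hq0 hqi
  set m := φ x₀ / 2 with hm
  have hm0 : 0 < m := by positivity
  set F : Cn n → ℝ := fun x => κ x * (H x).det.re * q x with hF
  have hFi : Integrable F := by
    have := integrable_test hκ.test (hD2.continuousOn.mul hq)
    refine this.congr (Filter.Eventually.of_forall fun x => ?_)
    simp only [hF, Pi.mul_apply]; ring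
  have hF0 : ∀ x ∈ T, 0 ≤ F x := fun x hx =>
    mul_nonneg (mul_nonneg (hκ.nonneg x) (hD1 x hx).2.1.le) (hq0 x hx)
  set U := U₀ ∩ V with hU
  have hUo : IsOpen U := hL.1.inter hVo
  have hUsub : U ⊆ U₀ := inter_subset_left
  have hd : ∀ x ∈ U, HasFDerivWithinAt τ ((fderiv ℂ τ x).restrictScalars ℝ) U x := by
    intro x hx
    exact ((hL.2.1.differentiableAt (hL.1.mem_nhds (hUsub hx))).hasFDerivAt.restrictScalars
      ℝ).hasFDerivWithinAt
  have himT : τ '' U ⊆ T := by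
    rintro _ ⟨x, hx, rfl⟩; exact hτT (hUsub hx)
  have hinjU : InjOn τ U := hinj.mono hUsub
  have hdet : ∀ x, |((fderiv ℂ τ x).restrictScalars ℝ).det| = ‖(fderiv ℂ τ x).det‖ ^ 2 := by
    intro x
    rw [Pool.Agent.Helper36.Abund.det_restrictScalars_eq, abs_of_nonneg (by positivity)]
  -- on `U` the transported density is `φ q`
  have hpt : ∀ x ∈ U, |((fderiv ℂ τ x).restrictScalars ℝ).det| • F (τ x) = φ x * q x := by
    intro x hx
    rw [hdet, smul_eq_mul]
    simp only [hF, hφ]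
    rw [hqi U₀ τ harr x (hUsub hx), (hD5 U₀ τ harr x (hUsub hx)).1]
    ring
  have h1 : IntegrableOn (fun x => φ x * q x) U := by
    have := (integrableOn_image_iff_integrableOn_abs_det_fderiv_smul (volume : Measure (Cn n))
      hUo.measurableSet hd hinjU F).mp hFi.integrableOn
    exact this.congr_fun hpt hUo.measurableSet
  have h2 : ∫ x in U, φ x * q x ≤ ∫ x in T, F x := by
    have h3 := integral_image_eq_integral_abs_det_fderiv_smul (volume : Measure (Cn n))
      hUo.measurableSet hd hinjU F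
    rw [← setIntegral_congr_fun hUo.measurableSet hpt, ← h3]
    refine setIntegral_mono_set hFi.integrableOn ?_ (LE.le.eventuallyLE himT)
    exact (ae_restrict_iff' hTo.measurableSet).mpr (Filter.Eventually.of_forall hF0)
  have hqC : IntegrableOn q C := (hq.mono hC).integrableOn_compact hCc
  have hCm : MeasurableSet C := hCc.isClosed.measurableSet
  have h4 : ∫ x in C ∩ U, q x ≤ ∫ x in C ∩ U, m⁻¹ * (φ x * q x) := by
    refine setIntegral_mono_on (hqC.mono_set inter_subset_left)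
      ((h1.mono_set inter_subset_right).const_mul _) (hCm.inter hUo.measurableSet) ?_
    intro x hx
    have hmx : m < φ x := hV hx.2.2
    have hqx := hq0 x (hC hx.1)
    rw [← mul_assoc]
    refine le_mul_of_one_le_left hqx ?_
    rw [inv_mul_eq_div, one_le_div hm0]
    exact hmx.le
  refine h4.trans ?_
  rw [integral_const_mul]
  refine mul_le_mul_of_nonneg_left ?_ (by positivity)
  refine le_trans ?_ h2
  refine setIntegral_mono_set h1 ?_ (LE.le.eventuallyLE inter_subset_right)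
  refine (ae_restrict_iff' hUo.measurableSet).mpr (Filter.Eventually.of_forall fun x hx => ?_)
  have hmx : m < φ x := hV hx.2
  exact mul_nonneg (hm0.le.trans hmx.le) (hq0 x (hUT (hUsub hx)))

/-- The integral over a compact set of a nonnegative invariant function is bounded by the global
integral. -/
theorem inv_bound (hARRB : S_ARRB.{u}) (hDETI : S_DETI.{u})
    {H : Cn n → Matrix (Fin n) (Fin n) ℂ} (hK : KEt T R H) {κ : Cn n → ℝ} (hκ : IsPUE T R κ)
    {C : Set (Cn n)} (hC : C ⊆ T) (hCc : IsCompact C) :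
    ∃ B : ℝ, 0 ≤ B ∧ ∀ q : Cn n → ℝ, ContinuousOn q T → (∀ x ∈ T, 0 ≤ q x) →
      (∀ U τ, Arr R U τ → ∀ x ∈ U, q (τ x) = q x) →
      ∫ x in C, q x ≤ B * ∫ x in T, κ x * (H x).det.re * q x := by
  have hloc := fun (x₀ : Cn n) (hx₀ : x₀ ∈ C) =>
    inv_bound_local hARRB hDETI hK hκ hC hCc (hC hx₀)
  choose! U b hUo hxU hb0 hb using hloc
  obtain ⟨t, htC, hcov⟩ := hCc.elim_nhds_subcover U
    (fun x hx => (hUo x hx).mem_nhds (hxU x hx))
  refine ⟨∑ x ∈ t, b x, Finset.sum_nonneg fun x hx => hb0 x (htC x hx), ?_⟩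
  intro q hq hq0 hqi
  have hCm : MeasurableSet C := hCc.isClosed.measurableSet
  have hqC : IntegrableOn q C := (hq.mono hC).integrableOn_compact hCc
  have h1 : ∫ x in C, q x ≤ ∫ x in C, ∑ i ∈ t, (U i).indicator q x := by
    refine setIntegral_mono_on hqC ?_ hCm ?_
    · exact integrable_finsetSum _ fun i hi => Integrable.indicator hqC (hUo i (htC i hi)).measurableSet
    · intro x hx
      obtain ⟨i, hi, hxi⟩ := mem_iUnion₂.mp (hcov hx)
      calc q x = (U i).indicator q x := (indicator_of_mem hxi _).symm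
        _ ≤ _ := Finset.single_le_sum (f := fun i => (U i).indicator q x)
          (fun j _ => indicator_apply_nonneg fun _ => hq0 x (hC hx)) hi
  refine h1.trans ?_
  rw [integral_finsetSum _ fun i hi =>
    Integrable.indicator hqC (hUo i (htC i hi)).measurableSet, Finset.sum_mul]
  refine Finset.sum_le_sum fun i hi => ?_
  rw [setIntegral_indicator (hUo i (htC i hi)).measurableSet]
  exact hb i (htC i hi) q hq hq0 hqi

end cover

section levi

variable {n : ℕ} {T : Set (Cn n)} {G : Type u} [Group G] {R : G → Cn n → Cn n → Prop}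

private theorem fderiv_ofReal {f : Cn n → ℝ} {x : Cn n} (hf : DifferentiableAt ℝ f x) (v : Cn n) :
    fderiv ℝ (fun y => (f y : ℂ)) x v = (fderiv ℝ f x v : ℂ) := by
  have h := (Complex.ofRealCLM.hasFDerivAt (x := f x)).comp x hf.hasFDerivAt
  have h2 : HasFDerivAt (fun y => (f y : ℂ)) (Complex.ofRealCLM.comp (fderiv ℝ f x)) x := h
  rw [h2.fderiv]
  rfl

/-- The Levi matrix depends only on the differential. -/
theorem LM_congr {U : Set (Cn n)} (hU : IsOpen U) {f g : Cn n → ℝ} (hf : ContDiffOn ℝ ∞ f U)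
    (hg : ContDiffOn ℝ ∞ g U) (h : ∀ x ∈ U, fderiv ℝ f x = fderiv ℝ g x) {x : Cn n} (hx : x ∈ U) :
    LM f x = LM g x := by
  have hcdb : ∀ k, ∀ y ∈ U, cdb k (fun y => (f y : ℂ)) y = cdb k (fun y => (g y : ℂ)) y := by
    intro k y hy
    have hfd : DifferentiableAt ℝ f y :=
      (hf.contDiffAt (hU.mem_nhds hy)).differentiableAt (by simp)
    have hgd : DifferentiableAt ℝ g y :=
      (hg.contDiffAt (hU.mem_nhds hy)).differentiableAt (by simp)
    unfold cdb
    rw [fderiv_ofReal hfd, fderiv_ofReal hfd, fderiv_ofReal hgd, fderiv_ofReal hgd, h y hy]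
  ext j k
  simp only [LM, Matrix.of_apply, cd]
  have hev : cdb k (fun y => (f y : ℂ)) =ᶠ[𝓝 x] cdb k (fun y => (g y : ℂ)) := by
    filter_upwards [hU.mem_nhds hx] with y hy
    exact hcdb k y hy
  rw [hev.fderiv_eq]

/-- The square norm of the Levi matrix. -/
private noncomputable def qL (H : Cn n → Matrix (Fin n) (Fin n) ℂ) (u : Cn n → ℝ) (x : Cn n) : ℝ :=
  (Matrix.trace ((H x)⁻¹ * LM u x * ((H x)⁻¹ * LM u x))).re

private theorem qL_cont (hLMF : S_LMF) (hDETI : S_DETI.{u})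
    {H : Cn n → Matrix (Fin n) (Fin n) ℂ} (hK : KEt T R H) {u : Cn n → ℝ}
    (hu : ContDiffOn ℝ ∞ u T) : ContinuousOn (qL H u) T := by
  obtain ⟨-, -, hD3, -, -, -⟩ := hDETI T R H hK
  obtain ⟨hL1, -, -, -⟩ := hLMF T hK.et.isOpen u hu
  unfold qL
  simp only [Matrix.trace, Matrix.diag, Matrix.mul_apply]
  refine Complex.continuous_re.comp_continuousOn (continuousOn_finsetSum _ fun i _ =>
    continuousOn_finsetSum _ fun j _ => ContinuousOn.mul ?_ ?_)
  · exact continuousOn_finsetSum _ fun k _ => (hD3 i k).continuousOn.mul (hL1 k j).continuousOn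
  · exact continuousOn_finsetSum _ fun k _ => (hD3 j k).continuousOn.mul (hL1 k i).continuousOn

private theorem qL_inv (hWCH : S_WCH) (hDETI : S_DETI.{u})
    {H : Cn n → Matrix (Fin n) (Fin n) ℂ} (hK : KEt T R H) {u : Cn n → ℝ}
    (hu : ContDiffOn ℝ ∞ u T) (hd : DInv R u) {U : Set (Cn n)} {τ : Cn n → Cn n}
    (hτ : Arr R U τ) {x : Cn n} (hx : x ∈ U) : qL H u (τ x) = qL H u x := by
  obtain ⟨-, -, -, -, hD5, -⟩ := hDETI T R H hK
  obtain ⟨hUo, hτd, γ, hγ⟩ := hτ
  have hUT : U ⊆ T := fun y hy => (hK.et.mem _ _ _ (hγ y hy)).1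
  have hmaps : MapsTo τ U T := fun y hy => (hK.et.mem _ _ _ (hγ y hy)).2
  set J : Matrix (Fin n) (Fin n) ℂ := Matrix.of fun p j => fderiv ℂ τ x (Pi.single j 1) p with hJ
  have hKτ : (H (τ x))⁻¹ = J.map conj * (H x)⁻¹ * Jᵀ := by
    ext j k
    rw [(hD5 U τ ⟨hUo, hτd, γ, hγ⟩ x hx).2 j k]
    simp only [Matrix.mul_apply, Matrix.map_apply, Matrix.transpose_apply, hJ, Matrix.of_apply]
    rw [Finset.sum_comm]
    refine Finset.sum_congr rfl fun q _ => ?_
    rw [Finset.sum_mul]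
  have hcomp : ContDiffOn ℝ ∞ (u ∘ τ) U :=
    hu.comp (holo_contDiffOn_real hUo hτd) hmaps
  have hLM : LM u x = Jᵀ * LM u (τ x) * J.map conj := by
    have h1 : LM (u ∘ τ) x = LM u x :=
      LM_congr hUo hcomp (hu.mono hUT) (fun y hy => hd U τ ⟨hUo, hτd, γ, hγ⟩ y hy) hx
    rw [← h1]
    ext j k
    rw [((hWCH.1 T U hK.et.isOpen hUo τ hτd hmaps).2 u hu x hx).2 j k]
    simp only [Matrix.mul_apply, Matrix.map_apply, Matrix.transpose_apply, hJ, Matrix.of_apply]
    rw [Finset.sum_comm]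
    refine Finset.sum_congr rfl fun q _ => ?_
    rw [Finset.sum_mul]
    refine Finset.sum_congr rfl fun p _ => ?_
    ring
  unfold qL
  rw [hLM, hKτ]
  congr 1
  have e1 : J.map conj * (H x)⁻¹ * Jᵀ * LM u (τ x) * (J.map conj * (H x)⁻¹ * Jᵀ * LM u (τ x)) =
      J.map conj * ((H x)⁻¹ * Jᵀ * LM u (τ x) * (J.map conj * (H x)⁻¹ * Jᵀ * LM u (τ x))) := by
    simp only [Matrix.mul_assoc]
  rw [e1, Matrix.trace_mul_comm]
  simp only [Matrix.mul_assoc]

private theorem hermi_bound {A : Matrix (Fin n) (Fin n) ℂ} {e : Cn n} (he : ‖e‖ ≤ 1) :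
    ‖hermi A e e‖ ≤ ∑ i, ∑ j, ‖A i j‖ := by
  unfold hermi
  refine (norm_sum_le _ _).trans (Finset.sum_le_sum fun i _ => ?_)
  refine (norm_sum_le _ _).trans (Finset.sum_le_sum fun j _ => ?_)
  rw [norm_mul, norm_mul, RCLike.norm_conj]
  have h1 : ‖e i‖ ≤ 1 := (norm_le_pi_norm e i).trans he
  have h2 : ‖e j‖ ≤ 1 := (norm_le_pi_norm e j).trans he
  calc ‖A i j‖ * ‖e i‖ * ‖e j‖ ≤ ‖A i j‖ * 1 * 1 := by gcongr
    _ = _ := by ring

/-- SP packet LML2. -/
theorem lml2 (hWCH : S_WCH) (hLMF : S_LMF) (hARRB : S_ARRB.{u}) (hDETI : S_DETI.{u}) :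
    S_LML2.{u} := by
  intro n T G _ R H hK κ hκ C hC hCc
  obtain ⟨B, hB0, hB⟩ := inv_bound hARRB hDETI hK hκ hC hCc
  have hCm : MeasurableSet C := hCc.isClosed.measurableSet
  obtain ⟨hD1, -, -, -, -, -⟩ := hDETI T R H hK
  -- a bound for `H` on `C`
  have hHc : ContinuousOn (fun x => ∑ i, ∑ j, ‖H x i j‖) C :=
    continuousOn_finsetSum _ fun i _ => continuousOn_finsetSum _ fun j _ =>
      ((hK.smooth i j).continuousOn.mono hC).norm
  obtain ⟨M, hM⟩ := hCc.exists_bound_of_continuousOn hHc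
  refine ⟨M ^ 2 * B, ?_⟩
  intro u hu hd e he
  have hL := hLMF T hK.et.isOpen u hu
  have hq0 : ∀ x ∈ T, 0 ≤ qL H u x := fun x hx =>
    (hermi_le (hD1 x hx).2.2.1 (hD1 x hx).2.2.2 (hL.2.1 x hx) 0).1
  have hqc : ContinuousOn (qL H u) T := qL_cont hLMF hDETI hK hu
  have hlev : ∀ x ∈ T, lev u x e = (hermi (LM u x) e e).re := by
    intro x hx
    rw [← hL.2.2.1 x hx e, Complex.ofReal_re]
  have hlc : ContinuousOn (fun x => lev u x e) T := by
    have : ContinuousOn (fun x => (hermi (LM u x) e e).re) T := by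
      unfold hermi
      refine Complex.continuous_re.comp_continuousOn (continuousOn_finsetSum _ fun i _ =>
        continuousOn_finsetSum _ fun j _ => ?_)
      exact ((hL.1 i j).continuousOn.mul continuousOn_const).mul continuousOn_const
    exact this.congr hlev
  have hpt : ∀ x ∈ C, lev u x e ^ 2 ≤ M ^ 2 * qL H u x := by
    intro x hx
    have hxT := hC hx
    have h1 := (hermi_le (hD1 x hxT).2.2.1 (hD1 x hxT).2.2.2 (hL.2.1 x hxT) e).2
    have h2 : lev u x e ^ 2 ≤ ‖hermi (LM u x) e e‖ ^ 2 := by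
      rw [hlev x hxT, sq_le_sq, abs_norm]
      exact Complex.abs_re_le_norm _
    have h3 : ‖hermi (H x) e e‖ ^ 2 ≤ M ^ 2 := by
      refine pow_le_pow_left₀ (norm_nonneg _) ?_ 2
      refine (hermi_bound he).trans ?_
      refine (le_abs_self _).trans ?_
      exact hM x hx
    calc lev u x e ^ 2 ≤ qL H u x * ‖hermi (H x) e e‖ ^ 2 := h2.trans h1
      _ ≤ qL H u x * M ^ 2 := mul_le_mul_of_nonneg_left h3 (hq0 x hxT)
      _ = _ := mul_comm _ _
  have h1 : ∫ x in C, lev u x e ^ 2 ≤ ∫ x in C, M ^ 2 * qL H u x :=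
    setIntegral_mono_on (((hlc.pow 2).mono hC).integrableOn_compact hCc)
      ((continuousOn_const.mul (hqc.mono hC)).integrableOn_compact hCc) hCm hpt
  refine h1.trans ?_
  rw [integral_const_mul, mul_assoc]
  refine mul_le_mul_of_nonneg_left ?_ (by positivity)
  exact hB (qL H u) hqc hq0 fun U τ hτ x hx => qL_inv hWCH hDETI hK hu hd hτ hx

end levi

end Pool.Agent.Helper75.SP
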